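import Pool.Agent.Helper61.Tri.Goals

/-!
# MP_5b3c48_co: embedding in an almost complete bipartite graph with `s+1` centres (packet EMBD)
-/

set_option autoImplicit false

open Finset Pool.Agent.Helper61.Tri

namespace Pool.Agent.Helper67.Tri

noncomputable section

open scoped Classical

variable {V : Type}

/-- The paths and even cycles. -/
theorem even_kinds (hT : EPTools) (hL : Link) [Fintype V] {s : ℕ} (hs : 2 ≤ s)
    {G : SimpleGraph V} {D Z : Finset V} (hD : D.card = s + 1)
    (hZ : ∀ z ∈ Z, ∀ d ∈ D, G.Adj z d ∧ 8 * s + 200 ≤ (cn G z d).card)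
    (hZc : 8 * s + 200 ≤ Z.card) : Has Kind.P s G ∧ Has Kind.Ce s G := by
  obtain ⟨z0, hz0, z1, hz1, hne⟩ := one_lt_card.1 (show 1 < Z.card by omega)
  have hzD : ∀ z ∈ Z, z ∉ D := fun z hz hd => G.loopless.irrefl _ (hZ z hz z hd).1
  constructor
  · have hlen : D.toList.length = s + 1 := by rw [length_toList, hD]
    obtain ⟨S', h, _⟩ := hL V G D.toList Z ∅ z0 z1 (8 * s + 200) (nodup_toList D)
      (fun h => by rw [h] at hlen; simp at hlen) hne
      (fun h => hzD z0 hz0 (mem_toList.1 h)) (fun h => hzD z1 hz1 (mem_toList.1 h))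
      (notMem_empty _) (notMem_empty _) (fun _ _ => notMem_empty _)
      (fun z hz d hd => hZ z hz d (mem_toList.1 hd)) hZc
      (fun d hd => hZ z0 hz0 d (mem_toList.1 (List.mem_of_mem_head? hd)))
      (fun d hd => hZ z1 hz1 d (mem_toList.1 (List.mem_of_mem_getLast? hd)))
      (by rw [card_empty, hlen]; omega)
    rw [hlen] at h
    exact ⟨z0, z1, S', h⟩
  · obtain ⟨d1, hd1⟩ : D.Nonempty := by rw [← card_pos]; omega
    have hlen : (D.erase d1).toList.length = s := by
      rw [length_toList, card_erase_of_mem hd1, hD]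
      omega
    have hsub : ∀ d, d ∈ (D.erase d1).toList → d ∈ D := fun d hd =>
      mem_of_mem_erase (mem_toList.1 hd)
    have hz0d : z0 ≠ d1 := fun h => hzD z0 hz0 (h ▸ hd1)
    have hz1d : z1 ≠ d1 := fun h => hzD z1 hz1 (h ▸ hd1)
    obtain ⟨S1, h1, hd1S⟩ := hL V G (D.erase d1).toList Z {d1} z0 z1 (8 * s + 200)
      (nodup_toList _)
      (fun h => by rw [h] at hlen; simp at hlen; omega) hne
      (fun h => hzD z0 hz0 (hsub _ h)) (fun h => hzD z1 hz1 (hsub _ h))
      (by rwa [mem_singleton]) (by rwa [mem_singleton])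
      (fun d hd => by
        rw [mem_singleton]
        exact ne_of_mem_erase (mem_toList.1 hd))
      (fun z hz d hd => hZ z hz d (hsub d hd)) hZc
      (fun d hd => hZ z0 hz0 d (hsub d (List.mem_of_mem_head? hd)))
      (fun d hd => hZ z1 hz1 d (hsub d (List.mem_of_mem_getLast? hd)))
      (by rw [card_singleton, hlen]; omega)
    rw [hlen] at h1
    obtain ⟨S1', hS1', h1', hcard, _, _⟩ := hT.shrink h1
    have hd1' : d1 ∉ S1' := fun h =>
      (disjoint_left.1 hd1S) (mem_singleton_self d1) (hS1' h)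
    have hc2 : ((S1'.erase z0).erase z1).card ≤ S1'.card :=
      (card_erase_le).trans card_erase_le
    obtain ⟨S2, h2, hdis⟩ := hL V G [d1] Z ((S1'.erase z0).erase z1) z1 z0 (8 * s + 200)
      (List.nodup_singleton _) (by simp) hne.symm
      (by simpa using hz1d) (by simpa using hz0d)
      (by simp) (by simp)
      (fun d hd => by
        rw [List.mem_singleton] at hd
        subst hd
        intro h
        exact hd1' (mem_of_mem_erase (mem_of_mem_erase h)))
      (fun z hz d hd => by
        rw [List.mem_singleton] at hd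
        subst hd
        exact hZ z hz d hd1) hZc
      (fun d hd => by
        simp only [List.head?_cons, Option.some.injEq] at hd
        subst hd
        exact hZ z1 hz1 _ hd1)
      (fun d hd => by
        simp only [List.getLast?_singleton, Option.some.injEq] at hd
        subst hd
        exact hZ z0 hz0 _ hd1)
      (by simp only [List.length_singleton]; omega)
    have h3 : 2 * [d1].length = 2 := by simp
    rw [h3] at h2
    refine hT.close h1' h2 ?_ (by omega) (by omega)
    intro x hx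
    rw [mem_inter] at hx
    by_contra hcon
    simp only [mem_insert, mem_singleton, not_or] at hcon
    exact (disjoint_left.1 hdis) (mem_erase.2 ⟨hcon.2, mem_erase.2 ⟨hcon.1, hx.1⟩⟩) hx.2

/-- The odd cycles. -/
theorem odd_kind (hT : EPTools) (hL : Link) [Fintype V] {s : ℕ} (hs : 2 ≤ s)
    {G : SimpleGraph V} {D Z : Finset V} (hD : D.card = s + 1)
    (hZ : ∀ z ∈ Z, ∀ d ∈ D, G.Adj z d ∧ 8 * s + 200 ≤ (cn G z d).card)
    (hZc : 8 * s + 200 ≤ Z.card) {z1 a d d' : V} (hz1 : z1 ∈ Z) (hd : d ∈ D) (hd' : d' ∈ D)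
    (hdd : d ≠ d') (haD : a ∉ D) (haz : G.Adj a z1) (had : G.Adj a d) (had' : G.Adj a d')
    (hcn : 8 * s + 200 ≤ (cn G a d).card) : Has Kind.Co s G := by
  have hzD : ∀ z ∈ Z, z ∉ D := fun z hz hd => G.loopless.irrefl _ (hZ z hz z hd).1
  have hz1d' : z1 ≠ d' := fun h => hzD z1 hz1 (h ▸ hd')
  have had'' : a ≠ d' := fun h => haD (h ▸ hd')
  have hne : z1 ≠ a := haz.ne'
  have hde : d ∈ D.erase d' := mem_erase.2 ⟨hdd, hd⟩
  obtain ⟨L, hLdef⟩ : ∃ L, L = ((D.erase d').erase d).toList ++ [d] := ⟨_, rfl⟩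
  have hmem : ∀ x, x ∈ L ↔ x ∈ D.erase d' := by
    intro x
    rw [hLdef, List.mem_append, mem_toList, mem_erase, List.mem_singleton]
    constructor
    · rintro (h | h)
      · exact h.2
      · rw [h]
        exact hde
    · intro h
      by_cases hx : x = d
      · exact Or.inr hx
      · exact Or.inl ⟨hx, h⟩
  have hlen : L.length = s := by
    rw [hLdef, List.length_append, length_toList, card_erase_of_mem hde,
      card_erase_of_mem hd', hD, List.length_singleton]
    omega
  have hnd : L.Nodup := by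
    rw [hLdef, List.nodup_append]
    refine ⟨nodup_toList _, List.nodup_singleton _, ?_⟩
    intro x hx y hy hxy
    rw [List.mem_singleton] at hy
    rw [mem_toList, mem_erase] at hx
    exact hx.1 (hxy.trans hy)
  have hLD : ∀ x ∈ L, x ∈ D := fun x hx => mem_of_mem_erase ((hmem x).1 hx)
  have hlast : L.getLast? = some d := by
    rw [hLdef]
    simp
  obtain ⟨S1, h1, hdis⟩ := hL V G L Z {d'} z1 a (8 * s + 200) hnd
    (fun h => by rw [h] at hlen; simp at hlen; omega) hne
    (fun h => hzD z1 hz1 (hLD _ h)) (fun h => haD (hLD _ h))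
    (by rwa [mem_singleton]) (by rwa [mem_singleton])
    (fun x hx => by
      rw [mem_singleton]
      exact ne_of_mem_erase ((hmem x).1 hx))
    (fun z hz x hx => hZ z hz x (hLD x hx)) hZc
    (fun x hx => hZ z1 hz1 x (hLD x (List.mem_of_mem_head? hx)))
    (fun x hx => by
      rw [hlast, Option.some.injEq] at hx
      subst hx
      exact ⟨had, hcn⟩)
    (by rw [card_singleton, hlen]; omega)
  rw [hlen] at h1
  have h2 : EP G 1 a z1 {a, z1, d'} := hT.single haz had' (hZ z1 hz1 d' hd').1
  refine hT.close h1 h2 ?_ (by omega) (le_refl 1)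
  intro x hx
  rw [mem_inter] at hx
  obtain ⟨hx1, hx2⟩ := hx
  simp only [mem_insert, mem_singleton] at hx2 ⊢
  rcases hx2 with h | h | h
  · exact Or.inr h
  · exact Or.inl h
  · subst h
    exact ((disjoint_left.1 hdis) (mem_singleton_self _) hx1).elim

/-- Double counting. -/
theorem count {R : Finset (V × V)} {X : Finset V} {F : V → Finset V}
    (h : ∀ x ∈ X, ∀ y ∈ F x, (x, y) ∈ R) {t : ℝ} (ht : ∀ x ∈ X, t ≤ ((F x).card : ℝ)) :
    (X.card : ℝ) * t ≤ (R.card : ℝ) := by
  have h1 : (X.card : ℝ) * t ≤ ∑ x ∈ X, ((F x).card : ℝ) := by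
    have := card_nsmul_le_sum X (fun x => ((F x).card : ℝ)) t ht
    rwa [nsmul_eq_mul] at this
  refine h1.trans ?_
  have h2 : ∑ x ∈ X, (F x).card ≤ R.card := by
    rw [← card_sigma]
    refine card_le_card_of_injOn (fun p => (p.1, p.2)) ?_ ?_
    · intro p hp
      have hp' := mem_sigma.1 (mem_coe.1 hp)
      exact mem_coe.2 (h p.1 hp'.1 p.2 hp'.2)
    · rintro ⟨p1, p2⟩ _ ⟨q1, q2⟩ _ hpq
      simp only [Prod.mk.injEq] at hpq
      obtain ⟨rfl, rfl⟩ := hpq
      rfl
  exact_mod_cast h2

theorem count' {R : Finset (V × V)} {X : Finset V} {F : V → Finset V}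
    (h : ∀ x ∈ X, ∀ y ∈ F x, (y, x) ∈ R) {t : ℝ} (ht : ∀ x ∈ X, t ≤ ((F x).card : ℝ)) :
    (X.card : ℝ) * t ≤ (R.card : ℝ) := by
  have h1 := count (R := R.image Prod.swap) (X := X) (F := F)
    (fun x hx y hy => mem_image.2 ⟨(y, x), h x hx y hy, rfl⟩) ht
  refine h1.trans ?_
  exact_mod_cast card_image_le

theorem embd : EPTools → Link → EmbD := by
  intro hT hL s hs η hη
  have hs2 : (0:ℝ) < (s:ℝ) + 2 := by positivity
  refine ⟨η ^ 2 / (16 * ((s:ℝ) + 2)), by positivity, ⌈4 * (8 * (s:ℝ) + 200) / η⌉₊ + 1, ?_⟩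
  intro V _ hV G A B _ hR D Z hD hZB hZc hZD hDA hM
  obtain ⟨d, hd, d', hd', hdd, hM⟩ := hM
  obtain ⟨n, hn⟩ : ∃ n : ℝ, n = (Fintype.card V : ℝ) := ⟨_, rfl⟩
  rw [← hn] at hR hZc hM
  have hDA' : ∀ d ∈ D, η * n ≤ ((A.filter fun a => G.Adj d a).card : ℝ) := by
    intro d hd
    rw [hn]
    exact hDA d hd
  have hnK : 4 * (8 * (s:ℝ) + 200) / η ≤ n := by
    have h1 : (⌈4 * (8 * (s:ℝ) + 200) / η⌉₊ : ℝ) ≤ n := by
      rw [hn]
      exact_mod_cast (Nat.le_succ _).trans hV
    exact (Nat.le_ceil _).trans h1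
  have hK : 8 * (s:ℝ) + 200 ≤ η / 4 * n := by
    rw [div_le_iff₀ hη] at hnK
    linarith
  have hn0 : 0 < n := by
    rw [hn]
    have : 0 < Fintype.card V := by omega
    exact_mod_cast this
  -- the bad vertices of `B` for a set `W`
  have bad : ∀ W : Finset V, W ⊆ A → η * n ≤ (W.card : ℝ) →
      ((Z.filter fun z => ((W.filter fun a => G.Adj z a).card : ℝ) < η / 2 * n).card : ℝ) ≤
        η * n / (8 * ((s:ℝ) + 2)) := by
    intro W hWA hW
    have h1 := count' (R := univ.filter fun p : V × V => p.1 ∈ A ∧ p.2 ∈ B ∧ ¬ G.Adj p.1 p.2)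
      (X := Z.filter fun z => ((W.filter fun a => G.Adj z a).card : ℝ) < η / 2 * n)
      (F := fun z => W.filter fun a => ¬ G.Adj z a) (t := η / 2 * n)
      (fun z hz a ha => by
        rw [mem_filter] at hz ha
        simp only [mem_filter, mem_univ, true_and]
        exact ⟨hWA ha.1, hZB hz.1, fun h => ha.2 h.symm⟩)
      (fun z hz => by
        rw [mem_filter] at hz
        have h2 : ((W.filter fun a => G.Adj z a).card : ℝ) +
            ((W.filter fun a => ¬ G.Adj z a).card : ℝ) = (W.card : ℝ) := by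
          exact_mod_cast card_filter_add_card_filter_not (s := W) (fun a => G.Adj z a)
        linarith [hz.2])
    have h2 := h1.trans hR
    have h3 : 0 < η / 2 * n := by positivity
    rw [← le_div_iff₀ h3] at h2
    refine h2.trans (le_of_eq ?_)
    field_simp
    ring
  obtain ⟨M, hMdef⟩ : ∃ M, M = A.filter fun a => G.Adj d a ∧ G.Adj d' a := ⟨_, rfl⟩
  rw [← hMdef] at hM
  have hMA : M ⊆ A := by
    rw [hMdef]
    exact filter_subset _ _
  obtain ⟨Z', hZ'def⟩ : ∃ Z', Z' = Z.filter fun z =>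
    (∀ d ∈ D, η / 2 * n ≤ (((A.filter fun a => G.Adj d a).filter fun a => G.Adj z a).card : ℝ)) ∧
      η / 2 * n ≤ ((M.filter fun a => G.Adj z a).card : ℝ) := ⟨_, rfl⟩
  have hZ'Z : Z' ⊆ Z := by
    rw [hZ'def]
    exact filter_subset _ _
  have hbadM := bad M hMA hM
  have hcover : Z ⊆ Z' ∪ (D.biUnion (fun d => Z.filter fun z =>
      (((A.filter fun a => G.Adj d a).filter fun a => G.Adj z a).card : ℝ) < η / 2 * n) ∪
      Z.filter fun z => ((M.filter fun a => G.Adj z a).card : ℝ) < η / 2 * n) := by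
    intro z hz
    simp only [mem_union, mem_biUnion, hZ'def, mem_filter, hz, true_and]
    by_cases h1 : ∀ d ∈ D, η / 2 * n ≤
        (((A.filter fun a => G.Adj d a).filter fun a => G.Adj z a).card : ℝ)
    · by_cases h2 : η / 2 * n ≤ ((M.filter fun a => G.Adj z a).card : ℝ)
      · exact Or.inl ⟨h1, h2⟩
      · exact Or.inr (Or.inr (not_le.1 h2))
    · push Not at h1
      exact Or.inr (Or.inl h1)
  have hZ'c : η / 2 * n ≤ (Z'.card : ℝ) := by
    have h1 := (card_le_card hcover).trans ((card_union_le _ _).trans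
      (Nat.add_le_add_left (card_union_le _ _) _))
    have h2 : ((D.biUnion (fun d => Z.filter fun z =>
        (((A.filter fun a => G.Adj d a).filter fun a => G.Adj z a).card : ℝ) < η / 2 * n)).card : ℝ)
        ≤ ((s:ℝ) + 1) * (η * n / (8 * ((s:ℝ) + 2))) := by
      have h3 : ((D.biUnion (fun d => Z.filter fun z =>
          (((A.filter fun a => G.Adj d a).filter fun a => G.Adj z a).card : ℝ) <
            η / 2 * n)).card : ℝ) ≤ ∑ d ∈ D, ((Z.filter fun z =>
          (((A.filter fun a => G.Adj d a).filter fun a => G.Adj z a).card : ℝ) <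
            η / 2 * n).card : ℝ) := by
        exact_mod_cast card_biUnion_le
      refine h3.trans ?_
      have h4 := sum_le_card_nsmul D (fun d => ((Z.filter fun z =>
          (((A.filter fun a => G.Adj d a).filter fun a => G.Adj z a).card : ℝ) <
            η / 2 * n).card : ℝ)) (η * n / (8 * ((s:ℝ) + 2)))
        (fun d hd => bad _ (filter_subset _ _) (hDA' d hd))
      rw [nsmul_eq_mul, hD] at h4
      push_cast at h4
      exact h4
    have h5 : (Z.card : ℝ) ≤ (Z'.card : ℝ) + (((D.biUnion (fun d => Z.filter fun z =>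
        (((A.filter fun a => G.Adj d a).filter fun a => G.Adj z a).card : ℝ) <
          η / 2 * n)).card : ℝ) + ((Z.filter fun z =>
        ((M.filter fun a => G.Adj z a).card : ℝ) < η / 2 * n).card : ℝ)) := by
      exact_mod_cast h1
    have h6 : ((s:ℝ) + 1) * (η * n / (8 * ((s:ℝ) + 2))) + η * n / (8 * ((s:ℝ) + 2)) =
        η * n / 8 := by
      field_simp
      ring
    have h7 : 0 < η * n := by positivity
    linarith
  have hKK : ((8 * s + 200 : ℕ) : ℝ) = 8 * (s:ℝ) + 200 := by push_cast; ring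
  have h7 : 0 < η * n := by positivity
  have hZ'K : 8 * s + 200 ≤ Z'.card := by
    have : ((8 * s + 200 : ℕ) : ℝ) ≤ (Z'.card : ℝ) := by
      rw [hKK]
      linarith
    exact_mod_cast this
  have hgood : ∀ z ∈ Z', ∀ d ∈ D, G.Adj z d ∧ 8 * s + 200 ≤ (cn G z d).card := by
    intro z hz d hd
    refine ⟨hZD z (hZ'Z hz) d hd, ?_⟩
    rw [hZ'def, mem_filter] at hz
    have h1 := hz.2.1 d hd
    have h2 : ((A.filter fun a => G.Adj d a).filter fun a => G.Adj z a).card ≤
        (cn G z d).card := by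
      refine card_le_card ?_
      intro a ha
      simp only [mem_filter] at ha
      simp only [cn, mem_filter, mem_univ, true_and]
      exact ⟨ha.2, ha.1.2⟩
    have h3 : (((A.filter fun a => G.Adj d a).filter fun a => G.Adj z a).card : ℝ) ≤
        ((cn G z d).card : ℝ) := by exact_mod_cast h2
    have : ((8 * s + 200 : ℕ) : ℝ) ≤ ((cn G z d).card : ℝ) := by
      rw [hKK]
      linarith
    exact_mod_cast this
  obtain ⟨hP, hCe⟩ := even_kinds hT hL hs hD hgood hZ'K
  refine ⟨hP, hCe, ?_⟩
  obtain ⟨z1, hz1⟩ : Z'.Nonempty := by rw [← card_pos]; omega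
  have hz1M : η / 2 * n ≤ ((M.filter fun a => G.Adj z1 a).card : ℝ) := by
    have := hz1
    rw [hZ'def, mem_filter] at this
    exact this.2.2
  -- the bad vertices of `M`
  have hbadA : ((M.filter fun a => (Z'.filter fun z => G.Adj a z).card < 8 * s + 200).card : ℝ) ≤
      η * n / 16 := by
    have h1 := count (R := univ.filter fun p : V × V => p.1 ∈ A ∧ p.2 ∈ B ∧ ¬ G.Adj p.1 p.2)
      (X := M.filter fun a => (Z'.filter fun z => G.Adj a z).card < 8 * s + 200)
      (F := fun a => Z'.filter fun z => ¬ G.Adj a z) (t := η / 4 * n)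
      (fun a ha z hz => by
        rw [mem_filter] at hz ha
        simp only [mem_filter, mem_univ, true_and]
        exact ⟨hMA ha.1, hZB (hZ'Z hz.1), hz.2⟩)
      (fun a ha => by
        rw [mem_filter] at ha
        have h2 : ((Z'.filter fun z => G.Adj a z).card : ℝ) +
            ((Z'.filter fun z => ¬ G.Adj a z).card : ℝ) = (Z'.card : ℝ) := by
          exact_mod_cast card_filter_add_card_filter_not (s := Z') (fun z => G.Adj a z)
        have h3 : ((Z'.filter fun z => G.Adj a z).card : ℝ) ≤ ((8 * s + 200 : ℕ) : ℝ) := by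
          exact_mod_cast ha.2.le
        rw [hKK] at h3
        linarith)
    have h2 := h1.trans hR
    have h3 : 0 < η / 4 * n := by positivity
    rw [← le_div_iff₀ h3] at h2
    refine h2.trans ?_
    have h4 : η ^ 2 / (16 * ((s:ℝ) + 2)) * n ^ 2 / (η / 4 * n) = η * n / (4 * ((s:ℝ) + 2)) := by
      field_simp
      ring
    rw [h4]
    have hs' : (2:ℝ) ≤ (s:ℝ) := by exact_mod_cast hs
    refine div_le_div_of_nonneg_left h7.le (by norm_num) ?_
    linarith
  obtain ⟨a, ha⟩ : (((M.filter fun a => G.Adj z1 a) \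
      (M.filter fun a => (Z'.filter fun z => G.Adj a z).card < 8 * s + 200)) \ D).Nonempty := by
    rw [← card_pos]
    have h1 := le_card_sdiff (M.filter fun a => (Z'.filter fun z => G.Adj a z).card < 8 * s + 200)
      (M.filter fun a => G.Adj z1 a)
    have h2 := le_card_sdiff D ((M.filter fun a => G.Adj z1 a) \
      (M.filter fun a => (Z'.filter fun z => G.Adj a z).card < 8 * s + 200))
    have h3 : (s + 1 : ℕ) + (M.filter fun a =>
        (Z'.filter fun z => G.Adj a z).card < 8 * s + 200).card <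
        (M.filter fun a => G.Adj z1 a).card := by
      have : (((s + 1 : ℕ) + (M.filter fun a =>
        (Z'.filter fun z => G.Adj a z).card < 8 * s + 200).card : ℕ) : ℝ) <
        ((M.filter fun a => G.Adj z1 a).card : ℝ) := by
        push_cast
        have hs' : (2:ℝ) ≤ (s:ℝ) := by exact_mod_cast hs
        linarith
      exact_mod_cast this
    omega
  simp only [mem_sdiff, mem_filter, not_and, not_lt] at ha
  obtain ⟨⟨⟨haM, haz⟩, ha2⟩, haD⟩ := ha
  have ha3 := ha2 haM
  have haM' := haM
  rw [hMdef, mem_filter] at haM'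
  refine odd_kind hT hL hs hD hgood hZ'K hz1 hd hd' hdd haD haz.symm haM'.2.1.symm
    haM'.2.2.symm (ha3.trans (card_le_card ?_))
  intro z hz
  rw [mem_filter] at hz
  simp only [cn, mem_filter, mem_univ, true_and]
  exact ⟨hz.2, (hZD z (hZ'Z hz.1) d hd).symm⟩

end

end Pool.Agent.Helper67.Tri
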